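import Pool.Agent.H24.FD.P1

/-!
# MP_1f2761, k = 2: row EPA (semigroup of free typical macro-digits)
-/

set_option autoImplicit false

open Finset

namespace Pool.Agent.H24.FD

namespace H48

theorem vN_lt {l : ℕ} (s : Fin l → Fin 3) : vN s < 2 ^ l := by
  have h1 : vN s ≤ ∑ i : Fin l, 2 ^ (i : ℕ) := by
    unfold vN
    refine Finset.sum_le_sum fun i _ => ?_
    split_ifs <;> simp
  have h2 : ∑ i : Fin l, 2 ^ (i : ℕ) = ∑ i ∈ Finset.range l, 2 ^ i :=
    Fin.sum_univ_eq_sum_range (fun i => 2 ^ i) l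
  have h3 : ∑ i ∈ Finset.range l, 2 ^ i < 2 ^ l :=
    Nat.geomSum_lt le_rfl (by simp)
  omega

theorem VN_append {l u v : ℕ} (V : Fin v → Fin l → Fin 3) (U : Fin u → Fin l → Fin 3) :
    VN (Fin.append V U) = VN V + 2 ^ (l * v) * VN U := by
  unfold VN
  rw [Fin.sum_univ_add, Finset.mul_sum]
  congr 1
  · simp
  · refine Finset.sum_congr rfl fun i _ => ?_
    rw [Fin.append_right, Fin.val_natAdd, pow_add, ← pow_mul, mul_assoc]

theorem VA_append {l u v : ℕ} (V : Fin v → Fin l → Fin 3) (U : Fin u → Fin l → Fin 3) :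
    VA (Fin.append V U) = VA V + 2 ^ (l * v) * VA U := by
  unfold VA
  rw [Fin.sum_univ_add, Finset.mul_sum]
  congr 1
  · simp
  · refine Finset.sum_congr rfl fun i _ => ?_
    rw [Fin.append_right, Fin.val_natAdd, pow_add, ← pow_mul, mul_assoc]

theorem PT_append (ε : ℝ) {l u v : ℕ} (V : Fin v → Fin l → Fin 3) (U : Fin u → Fin l → Fin 3) :
    PT ε (Fin.append V U) = PT ε V * PT ε U := by
  unfold PT
  rw [Fin.prod_univ_add]
  simp

theorem app_append {l u v : ℕ} (x : ℕ × ℕ) (V : Fin v → Fin l → Fin 3)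
    (U : Fin u → Fin l → Fin 3) : app x (Fin.append V U) = app (app x U) V := by
  unfold app
  rw [VN_append, VA_append]
  ext
  · show 2 ^ (l * (v + u)) * x.1 + (VN V + 2 ^ (l * v) * VN U) =
      2 ^ (l * v) * (2 ^ (l * u) * x.1 + VN U) + VN V
    rw [mul_add l v u, pow_add]
    ring
  · show 2 ^ (l * (v + u)) * x.2 + (VA V + 2 ^ (l * v) * VA U) =
      2 ^ (l * v) * (2 ^ (l * u) * x.2 + VA U) + VA V
    rw [mul_add l v u, pow_add]
    ring

theorem EP_add (ε : ℝ) (l u v : ℕ) (g : ℕ × ℕ → ℝ) (x : ℕ × ℕ) :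
    EP ε l (u + v) g x = EP ε l u (fun y => EP ε l v g y) x := by
  rw [Nat.add_comm u v]
  unfold EP
  rw [← (Fin.appendEquiv v u).sum_comp, Fintype.sum_prod_type_right]
  refine Finset.sum_congr rfl fun U _ => ?_
  rw [Finset.mul_sum]
  refine Finset.sum_congr rfl fun V _ => ?_
  show PT ε (Fin.append V U) * g (app x (Fin.append V U)) = _
  rw [PT_append, app_append]
  ring

theorem pT_nonneg (ε : ℝ) {l : ℕ} (s : Fin l → Fin 3) : 0 ≤ pT ε s := by
  unfold pT
  split_ifs
  · positivity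
  · exact le_rfl

theorem PT_nonneg (ε : ℝ) {l k : ℕ} (S : Fin k → Fin l → Fin 3) : 0 ≤ PT ε S :=
  Finset.prod_nonneg fun i _ => pT_nonneg ε (S i)

theorem pT_le (ε : ℝ) {l : ℕ} (s : Fin l → Fin 3) : pT ε s ≤ pF ε s := by
  unfold pT pF
  by_cases h : typ ε s
  · rw [if_pos h, if_pos h.1]
  · rw [if_neg h]
    split_ifs <;> positivity

theorem sum_pF (ε : ℝ) {l : ℕ} (hM : Marg ε l) : ∑ s : Fin l → Fin 3, pF ε s = 1 := by
  classical
  have h1 : ∀ s : Fin l → Fin 3, pF ε s =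
      ∑ η ∈ Finset.range (2 ^ l), (if vN s = η then pF ε s else 0) := by
    intro s
    rw [Finset.sum_ite_eq, if_pos (Finset.mem_range.2 (vN_lt s))]
  calc ∑ s : Fin l → Fin 3, pF ε s
      = ∑ s : Fin l → Fin 3, ∑ η ∈ Finset.range (2 ^ l), (if vN s = η then pF ε s else 0) :=
        Finset.sum_congr rfl fun s _ => h1 s
    _ = ∑ η ∈ Finset.range (2 ^ l), ∑ s : Fin l → Fin 3, (if vN s = η then pF ε s else 0) :=
        Finset.sum_comm
    _ = ∑ η ∈ Finset.range (2 ^ l), (1 / 2 ^ l : ℝ) := by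
        refine Finset.sum_congr rfl fun η hη => ?_
        have := hM η (Finset.mem_range.1 hη)
        convert this using 1
    _ = 1 := by
        rw [Finset.sum_const, Finset.card_range, nsmul_eq_mul]
        push_cast
        field_simp

theorem sum_PT_le (ε : ℝ) {l : ℕ} (hM : Marg ε l) (u : ℕ) :
    ∑ U : Fin u → Fin l → Fin 3, PT ε U ≤ 1 := by
  unfold PT
  rw [← Fintype.sum_pow]
  refine pow_le_one₀ (Finset.sum_nonneg fun s _ => pT_nonneg ε s) ?_
  rw [← sum_pF ε hM]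
  exact Finset.sum_le_sum fun s _ => pT_le ε s

end H48

theorem epa : EPAStmt := by
  intro ε l hM
  refine ⟨fun u v g x => H48.EP_add ε l u v g x, ?_, ?_, ?_⟩
  · intro u f g x h
    exact Finset.sum_le_sum fun U _ => mul_le_mul_of_nonneg_left (h _) (H48.PT_nonneg ε U)
  · intro u c x hc
    unfold EP
    rw [← Finset.sum_mul]
    exact (mul_le_mul_of_nonneg_right (H48.sum_PT_le ε hM u) hc).trans_eq (one_mul c)
  · intro u f g c x
    unfold EP
    rw [Finset.mul_sum, ← Finset.sum_add_distrib]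
    exact Finset.sum_congr rfl fun U _ => by ring

end Pool.Agent.H24.FD
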