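import Pool.Agent.H48.FD.EPA

/-!
# MP_1f2761, k = 2: row FLA (flattening)
-/

set_option autoImplicit false

open Finset

namespace Pool.Agent.H24.FD

namespace H48

theorem VN_lt {l k : ℕ} (S : Fin k → Fin l → Fin 3) : VN S < 2 ^ (l * k) := by
  induction k with
  | zero => simp [VN]
  | succ k ih =>
    have h1 : VN S = vN (S 0) + 2 ^ l * VN (fun i : Fin k => S i.succ) := by
      unfold VN
      rw [Fin.sum_univ_succ, Finset.mul_sum]
      congr 1
      · simp
      · refine Finset.sum_congr rfl fun i _ => ?_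
        rw [Fin.val_succ, pow_succ]
        ring
    have h2 := ih (fun i : Fin k => S i.succ)
    have h3 := vN_lt (S 0)
    rw [h1, mul_add, mul_one, pow_add]
    calc vN (S 0) + 2 ^ l * VN (fun i : Fin k => S i.succ)
        < 2 ^ l + 2 ^ l * VN (fun i : Fin k => S i.succ) := Nat.add_lt_add_right h3 _
      _ = 2 ^ l * (VN (fun i : Fin k => S i.succ) + 1) := by ring
      _ ≤ 2 ^ l * 2 ^ (l * k) := Nat.mul_le_mul_left _ h2
      _ = 2 ^ (l * k) * 2 ^ l := mul_comm _ _

theorem vA_lt {l : ℕ} (s : Fin l → Fin 3) : vA s < 2 ^ l := by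
  have h1 : vA s ≤ ∑ i : Fin l, 2 ^ (i : ℕ) := by
    unfold vA
    refine Finset.sum_le_sum fun i _ => ?_
    split_ifs <;> simp
  have h2 : ∑ i : Fin l, 2 ^ (i : ℕ) = ∑ i ∈ Finset.range l, 2 ^ i :=
    Fin.sum_univ_eq_sum_range (fun i => 2 ^ i) l
  have h3 : ∑ i ∈ Finset.range l, 2 ^ i < 2 ^ l :=
    Nat.geomSum_lt le_rfl (by simp)
  omega

theorem VA_lt {l k : ℕ} (S : Fin k → Fin l → Fin 3) : VA S < 2 ^ (l * k) := by
  induction k with
  | zero => simp [VA]
  | succ k ih =>
    have h1 : VA S = vA (S 0) + 2 ^ l * VA (fun i : Fin k => S i.succ) := by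
      unfold VA
      rw [Fin.sum_univ_succ, Finset.mul_sum]
      congr 1
      · simp
      · refine Finset.sum_congr rfl fun i _ => ?_
        rw [Fin.val_succ, pow_succ]
        ring
    have h2 := ih (fun i : Fin k => S i.succ)
    have h3 := vA_lt (S 0)
    rw [h1, mul_add, mul_one, pow_add]
    calc vA (S 0) + 2 ^ l * VA (fun i : Fin k => S i.succ)
        < 2 ^ l + 2 ^ l * VA (fun i : Fin k => S i.succ) := Nat.add_lt_add_right h3 _
      _ = 2 ^ l * (VA (fun i : Fin k => S i.succ) + 1) := by ring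
      _ ≤ 2 ^ l * 2 ^ (l * k) := Nat.mul_le_mul_left _ h2
      _ = 2 ^ (l * k) * 2 ^ l := mul_comm _ _

theorem II_mono (q : ℕ) {a b : ℕ} (h : a ≤ b) : II q a ≤ II q b :=
  Nat.clog_mono_right q (Nat.pow_le_pow_right (by norm_num) h)

theorem le_II {q : ℕ} (hq : 2 ≤ q) (J : ℕ) : 2 ^ J ≤ q ^ II q J :=
  Nat.le_pow_clog hq _

/-- the full digit is the truncated one or the next one -/
theorem floor_step {Q P a c : ℕ} (hQ : 0 < Q) (hP : P ≤ Q) (hc : c < P) :
    (a * P + c) / Q = a * P / Q ∨ (a * P + c) / Q = a * P / Q + 1 := by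
  have h1 : a * P / Q ≤ (a * P + c) / Q := Nat.div_le_div_right (by omega)
  have h2 : (a * P + c) / Q ≤ a * P / Q + 1 := by
    have h3 : (a * P + c) / Q ≤ (a * P + Q) / Q := Nat.div_le_div_right (by omega)
    rwa [Nat.add_div_right _ hQ] at h3
  omega

/-- one coordinate of the comparison of digits -/
theorem coord {q : ℕ} (hq : 2 ≤ q) {J w W' : ℕ} (hJ : w + W' ≤ J) (y c : ℕ)
    (hc : c < 2 ^ W') :
    let A := (2 ^ W' * y + c) * 2 ^ (J - (w + W')) / q ^ II q (J - (w + W')) %
      q ^ tt q (w + W') J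
    A % q ^ tt q W' (J - w) = (2 ^ W' * y + c) * 2 ^ (J - w - W') / q ^ II q (J - w - W') %
      q ^ tt q W' (J - w) ∧
    ∃ d < 2, y * 2 ^ (J - w) / q ^ II q (J - w) % q ^ tt q w J =
      (A / q ^ tt q W' (J - w) + q ^ tt q w J - d) % q ^ tt q w J := by
  intro A
  have hs : J - (w + W') = J - w - W' := by omega
  have ht : tt q (w + W') J = tt q W' (J - w) + tt q w J := by
    unfold tt
    rw [hs]
    have h1 := II_mono q (show J - w - W' ≤ J - w by omega)
    have h2 := II_mono q (show J - w ≤ J by omega)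
    omega
  set B := (2 ^ W' * y + c) * 2 ^ (J - w - W') / q ^ II q (J - w - W') with hB
  have hA : A = B % (q ^ tt q W' (J - w) * q ^ tt q w J) := by
    show (2 ^ W' * y + c) * 2 ^ (J - (w + W')) / q ^ II q (J - (w + W')) %
      q ^ tt q (w + W') J = _
    rw [hs, ht, pow_add]
  have hq0 : 0 < q := by omega
  have hpos : ∀ n, 0 < q ^ n := fun n => pow_pos hq0 n
  refine ⟨?_, ?_⟩
  · rw [hA, Nat.mod_mul_right_mod]
  · have hdiv : A / q ^ tt q W' (J - w) = B / q ^ tt q W' (J - w) % q ^ tt q w J := by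
      rw [hA, Nat.mod_mul_right_div_self]
    have hB2 : B / q ^ tt q W' (J - w) =
        (y * 2 ^ (J - w) + c * 2 ^ (J - w - W')) / q ^ II q (J - w) := by
      rw [hB, Nat.div_div_eq_div_mul, ← pow_add]
      have e1 : II q (J - w - W') + tt q W' (J - w) = II q (J - w) := by
        unfold tt
        have h1 := II_mono q (show J - w - W' ≤ J - w by omega)
        omega
      have e2 : (2 ^ W' * y + c) * 2 ^ (J - w - W') =
          y * 2 ^ (J - w) + c * 2 ^ (J - w - W') := by
        have e3 : 2 ^ (J - w) = 2 ^ W' * 2 ^ (J - w - W') := by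
          rw [← pow_add]
          congr 1
          omega
        rw [e3]
        ring
      rw [e1, e2]
    have hc2 : c * 2 ^ (J - w - W') < 2 ^ (J - w) := by
      have e3 : 2 ^ (J - w) = 2 ^ W' * 2 ^ (J - w - W') := by
        rw [← pow_add]
        congr 1
        omega
      rw [e3]
      exact Nat.mul_lt_mul_of_pos_right hc (by positivity)
    have hstep := floor_step (a := y) (hpos (II q (J - w))) (le_II hq (J - w)) hc2
    rw [← hB2] at hstep
    set a := y * 2 ^ (J - w) / q ^ II q (J - w) with ha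
    set m := q ^ tt q w J with hm
    have hm0 : 0 < m := hpos _
    rcases hstep with h | h
    · refine ⟨0, by norm_num, ?_⟩
      rw [hdiv, h, Nat.sub_zero, Nat.add_mod_right, Nat.mod_mod]
    · refine ⟨1, by norm_num, ?_⟩
      rw [hdiv, h]
      rcases Nat.lt_or_ge (a % m + 1) m with h1 | h1
      · have e : (a + 1) % m = a % m + 1 := by
          rw [Nat.add_mod, Nat.mod_eq_of_lt (show 1 < m by omega)]
          exact Nat.mod_eq_of_lt h1
        rw [e, show a % m + 1 + m - 1 = a % m + m by omega, Nat.add_mod_right, Nat.mod_mod]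
      · have h2 := Nat.mod_lt a hm0
        have h3 : a % m = m - 1 := by omega
        have e : (a + 1) % m = 0 := by
          have h4 : (a + 1) = m * (a / m) + m := by
            have := Nat.div_add_mod a m
            omega
          rw [h4, Nat.add_mod_right, Nat.mul_mod_right]
        rw [e, Nat.zero_add, h3]
        exact (Nat.mod_eq_of_lt (by omega)).symm

theorem OMF_nonneg (q w : ℕ) (om : ℕ → ℕ × ℕ → ℝ) (hom : ∀ J z, 0 ≤ om J z) :
    ∀ (n J : ℕ) (z : ℕ × ℕ), 0 ≤ OMF q w om J n z := by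
  intro n
  induction n with
  | zero => intro J z; exact zero_le_one
  | succ n ih =>
    intro J z
    refine mul_nonneg ?_ (ih _ _)
    have : 0 ≤ omP q w om J (z.1 / q ^ tt q (w * n) (J - w), z.2 / q ^ tt q (w * n) (J - w)) :=
      Finset.sum_nonneg fun _ _ => Finset.sum_nonneg fun _ _ => hom _ _
    linarith

theorem om_le_omP (q w : ℕ) (om : ℕ → ℕ × ℕ → ℝ) (hom : ∀ J z, 0 ≤ om J z) (J : ℕ)
    (z : ℕ × ℕ) (d₁ d₂ : ℕ) (h₁ : d₁ < 2) (h₂ : d₂ < 2) :
    om J ((z.1 + q ^ tt q w J - d₁) % q ^ tt q w J, (z.2 + q ^ tt q w J - d₂) % q ^ tt q w J) ≤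
      omP q w om J z := by
  unfold omP
  refine le_trans ?_ (Finset.single_le_sum (f := fun d₁ => ∑ d₂ ∈ range 2,
    om J ((z.1 + q ^ tt q w J - d₁) % q ^ tt q w J, (z.2 + q ^ tt q w J - d₂) % q ^ tt q w J))
    (fun _ _ => Finset.sum_nonneg fun _ _ => hom _ _) (Finset.mem_range.2 h₁))
  exact Finset.single_le_sum (f := fun d₂ =>
    om J ((z.1 + q ^ tt q w J - d₁) % q ^ tt q w J, (z.2 + q ^ tt q w J - d₂) % q ^ tt q w J))
    (fun _ _ => hom _ _) (Finset.mem_range.2 h₂)

/-- the pointwise comparison -/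
theorem point (q l k : ℕ) (om : ℕ → ℕ × ℕ → ℝ) (hq : 2 ≤ q) (hom : ∀ J z, 0 ≤ om J z)
    (n J : ℕ) (hJ : l * k * (n + 1) ≤ J) (y : ℕ × ℕ) (U : Fin (k * n) → Fin l → Fin 3) :
    (1 + 2 * om J (zz q (l * k) J y)) *
      OMF q (l * k) om (J - l * k) n (zz q (l * k * n) (J - l * k) (app y U)) ≤
    OMF q (l * k) om J (n + 1) (zz q (l * k * (n + 1)) J (app y U)) := by
  have hw : l * k * (n + 1) = l * k + l * k * n := by ring
  have hJ' : l * k + l * k * n ≤ J := by rw [← hw]; exact hJ
  have e0 : l * (k * n) = l * k * n := by ring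
  obtain ⟨a1, d₁, hd₁, b1⟩ := coord hq hJ' y.1 (VN U) (by rw [← e0]; exact VN_lt U)
  obtain ⟨a2, d₂, hd₂, b2⟩ := coord hq hJ' y.2 (VA U) (by rw [← e0]; exact VA_lt U)
  have hz : zz q (l * k * (n + 1)) J (app y U) =
      ((2 ^ (l * k * n) * y.1 + VN U) * 2 ^ (J - (l * k + l * k * n)) /
        q ^ II q (J - (l * k + l * k * n)) % q ^ tt q (l * k + l * k * n) J,
       (2 ^ (l * k * n) * y.2 + VA U) * 2 ^ (J - (l * k + l * k * n)) /
        q ^ II q (J - (l * k + l * k * n)) % q ^ tt q (l * k + l * k * n) J) := by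
    rw [hw]
    unfold zz app
    rw [e0]
  have hz' : zz q (l * k * n) (J - l * k) (app y U) =
      ((2 ^ (l * k * n) * y.1 + VN U) * 2 ^ (J - l * k - l * k * n) /
        q ^ II q (J - l * k - l * k * n) % q ^ tt q (l * k * n) (J - l * k),
       (2 ^ (l * k * n) * y.2 + VA U) * 2 ^ (J - l * k - l * k * n) /
        q ^ II q (J - l * k - l * k * n) % q ^ tt q (l * k * n) (J - l * k)) := by
    unfold zz app
    rw [e0]
  rw [hz, hz']
  show _ ≤ (1 + 2 * omP q (l * k) om J (_, _)) * OMF q (l * k) om (J - l * k) n (_, _)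
  simp only [] at a1 a2 b1 b2 ⊢
  rw [a1, a2]
  refine mul_le_mul_of_nonneg_right ?_ (OMF_nonneg q (l * k) om hom n _ _)
  have key : om J (zz q (l * k) J y) ≤ omP q (l * k) om J
      ((2 ^ (l * k * n) * y.1 + VN U) * 2 ^ (J - (l * k + l * k * n)) /
        q ^ II q (J - (l * k + l * k * n)) % q ^ tt q (l * k + l * k * n) J /
          q ^ tt q (l * k * n) (J - l * k),
       (2 ^ (l * k * n) * y.2 + VA U) * 2 ^ (J - (l * k + l * k * n)) /
        q ^ II q (J - (l * k + l * k * n)) % q ^ tt q (l * k + l * k * n) J /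
          q ^ tt q (l * k * n) (J - l * k)) := by
    have := om_le_omP q (l * k) om hom J
      ((2 ^ (l * k * n) * y.1 + VN U) * 2 ^ (J - (l * k + l * k * n)) /
        q ^ II q (J - (l * k + l * k * n)) % q ^ tt q (l * k + l * k * n) J /
          q ^ tt q (l * k * n) (J - l * k),
       (2 ^ (l * k * n) * y.2 + VA U) * 2 ^ (J - (l * k + l * k * n)) /
        q ^ II q (J - (l * k + l * k * n)) % q ^ tt q (l * k + l * k * n) J /
          q ^ tt q (l * k * n) (J - l * k)) d₁ d₂ hd₁ hd₂
    simp only [] at this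
    rw [← b1, ← b2] at this
    exact this
  linarith

end H48

theorem fla : FLAStmt := by
  intro q l k ε om hq hM hom n
  induction n with
  | zero =>
    intro J _ f hf x
    refine le_of_eq ?_
    show f x = ∑ U : Fin (k * 0) → Fin l → Fin 3, PT ε U * (1 * f (app x U))
    have h0 : k * 0 = 0 := rfl
    rw [Fintype.sum_eq_single (fun i => (Fin.elim0 (h0 ▸ i)))]
    · have hx : app x (fun i : Fin (k * 0) => (Fin.elim0 (h0 ▸ i) : Fin l → Fin 3)) = x := by
        unfold app VN VA
        simp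
      rw [hx]
      unfold PT
      simp
    · intro U hU
      exact absurd (funext fun i => Fin.elim0 (h0 ▸ i)) hU
  | succ n ih =>
    intro J hJ f hf x
    have hw : l * k * (n + 1) = l * k + l * k * n := by ring
    have hJ' : l * k * n ≤ J - l * k := by omega
    have hEP := epa ε l hM
    show EP ε l k (fun y => (1 + 2 * om J (zz q (l * k) J y)) *
      RT q l k ε om (J - l * k) n f y) x ≤ _
    rw [show k * (n + 1) = k + k * n by ring, hEP.1]
    refine hEP.2.1 k _ _ x fun y => ?_
    have h1 : 0 ≤ 1 + 2 * om J (zz q (l * k) J y) := by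
      have := hom J (zz q (l * k) J y)
      linarith
    refine (mul_le_mul_of_nonneg_left (ih (J - l * k) hJ' f hf y) h1).trans ?_
    unfold EP
    rw [Finset.mul_sum]
    refine Finset.sum_le_sum fun U _ => ?_
    have h2 := H48.point q l k om hq hom n J hJ y U
    have h3 := mul_le_mul_of_nonneg_right h2 (mul_nonneg (H48.PT_nonneg ε U) (hf (app y U)))
    calc (1 + 2 * om J (zz q (l * k) J y)) * (PT ε U *
          (OMF q (l * k) om (J - l * k) n (zz q (l * k * n) (J - l * k) (app y U)) *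
            f (app y U)))
        = (1 + 2 * om J (zz q (l * k) J y)) *
          OMF q (l * k) om (J - l * k) n (zz q (l * k * n) (J - l * k) (app y U)) *
            (PT ε U * f (app y U)) := by ring
      _ ≤ OMF q (l * k) om J (n + 1) (zz q (l * k * (n + 1)) J (app y U)) *
            (PT ε U * f (app y U)) := h3
      _ = _ := by ring

end Pool.Agent.H24.FD
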